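import Pool.Agent.Q98.SPN.Stm

/-!
# Project GSP, package UNI: unitarisation of a matrix representation of a finite group
-/

set_option autoImplicit false

open scoped Matrix.Norms.L2Operator Matrix MatrixOrder ComplexOrder
open Finset Matrix

namespace Pool.Agent.U689.GSP.UNI

open Pool.Agent.Q98.SPN

/-- for a finite group of matrices there is an invertible matrix `S` such that `S (ρ g) S⁻¹` is unitary -/
theorem t_UNI : S_UNI := by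
  intro G _ _ d ρ
  classical
  have hu : ∀ g : G, IsUnit (ρ g) := fun g => (Group.isUnit g).map ρ
  have hpd : ∀ g : G, ((ρ g)ᴴ * ρ g).PosDef := by
    intro g
    refine (Matrix.posSemidef_conjTranspose_mul_self (ρ g)).posDef_iff_isUnit.mpr ?_
    refine IsUnit.mul ?_ (hu g)
    have := (hu g).star
    rwa [Matrix.star_eq_conjTranspose] at this
  obtain ⟨h, hh⟩ : ∃ h : Matrix (Fin d) (Fin d) ℂ, h = ∑ g : G, (ρ g)ᴴ * ρ g := ⟨_, rfl⟩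
  have hhpd : h.PosDef := by
    rw [hh]
    exact Matrix.posDef_sum Finset.univ_nonempty (fun g _ => hpd g)
  have hinv : ∀ a : G, (ρ a)ᴴ * h * ρ a = h := by
    intro a
    rw [hh, Finset.mul_sum, Finset.sum_mul]
    have : ∀ g : G, (ρ a)ᴴ * ((ρ g)ᴴ * ρ g) * ρ a = (ρ (g * a))ᴴ * ρ (g * a) := by
      intro g
      rw [map_mul, Matrix.conjTranspose_mul]
      simp only [Matrix.mul_assoc]
    rw [Finset.sum_congr rfl (fun g _ => this g)]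
    exact Fintype.sum_equiv (Equiv.mulRight a) _ _ (fun g => rfl)
  obtain ⟨S, hS⟩ := CStarAlgebra.nonneg_iff_eq_star_mul_self.mp hhpd.posSemidef.nonneg
  rw [Matrix.star_eq_conjTranspose] at hS
  have hSu : IsUnit S := by
    have h1 : IsUnit (Sᴴ * S) := hS ▸ hhpd.isUnit
    rw [Matrix.isUnit_iff_isUnit_det, Matrix.det_mul] at h1
    rw [Matrix.isUnit_iff_isUnit_det]
    exact isUnit_of_mul_isUnit_right h1
  obtain ⟨U, rfl⟩ := hSu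
  refine ⟨U, fun g => ?_⟩
  have e1 : ((U : Matrix (Fin d) (Fin d) ℂ) * ρ g *
      ((U⁻¹ : (Matrix (Fin d) (Fin d) ℂ)ˣ) : Matrix (Fin d) (Fin d) ℂ))ᴴ =
      ((U⁻¹ : (Matrix (Fin d) (Fin d) ℂ)ˣ) : Matrix (Fin d) (Fin d) ℂ)ᴴ * ((ρ g)ᴴ *
        (U : Matrix (Fin d) (Fin d) ℂ)ᴴ) := by
    rw [Matrix.conjTranspose_mul, Matrix.conjTranspose_mul]
  rw [e1]
  have e2 : ((U⁻¹ : (Matrix (Fin d) (Fin d) ℂ)ˣ) : Matrix (Fin d) (Fin d) ℂ)ᴴ * ((ρ g)ᴴ *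
        (U : Matrix (Fin d) (Fin d) ℂ)ᴴ) * ((U : Matrix (Fin d) (Fin d) ℂ) * ρ g *
      ((U⁻¹ : (Matrix (Fin d) (Fin d) ℂ)ˣ) : Matrix (Fin d) (Fin d) ℂ)) =
      ((U⁻¹ : (Matrix (Fin d) (Fin d) ℂ)ˣ) : Matrix (Fin d) (Fin d) ℂ)ᴴ *
      ((ρ g)ᴴ * ((U : Matrix (Fin d) (Fin d) ℂ)ᴴ * (U : Matrix (Fin d) (Fin d) ℂ)) * ρ g) *
      ((U⁻¹ : (Matrix (Fin d) (Fin d) ℂ)ˣ) : Matrix (Fin d) (Fin d) ℂ) := by
    simp only [Matrix.mul_assoc]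
  rw [e2, ← hS, hinv g, hS]
  have e3 : ((U⁻¹ : (Matrix (Fin d) (Fin d) ℂ)ˣ) : Matrix (Fin d) (Fin d) ℂ)ᴴ *
      ((U : Matrix (Fin d) (Fin d) ℂ)ᴴ * (U : Matrix (Fin d) (Fin d) ℂ)) *
      ((U⁻¹ : (Matrix (Fin d) (Fin d) ℂ)ˣ) : Matrix (Fin d) (Fin d) ℂ) =
      ((U : Matrix (Fin d) (Fin d) ℂ) *
        ((U⁻¹ : (Matrix (Fin d) (Fin d) ℂ)ˣ) : Matrix (Fin d) (Fin d) ℂ))ᴴ *
      ((U : Matrix (Fin d) (Fin d) ℂ) *
        ((U⁻¹ : (Matrix (Fin d) (Fin d) ℂ)ˣ) : Matrix (Fin d) (Fin d) ℂ)) := by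
    rw [Matrix.conjTranspose_mul]
    simp only [Matrix.mul_assoc]
  rw [e3, Units.mul_inv, Matrix.conjTranspose_one, Matrix.one_mul]

end Pool.Agent.U689.GSP.UNI
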